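import Pool.Agent.H.MP_817c3f_lc.A

set_option autoImplicit false

namespace Pool.Agent.Results.MP_817c3f_lc.Full

open Pool.Agent.Lib.CX Pool.Agent.H.MP_817c3f_lc

/-- edges of Left, edges of Right, occupied vertices, player to move (`true` is Left) -/
abbrev Pos := List (ℕ × ℕ) × List (ℕ × ℕ) × List ℕ × Bool

/-- the player to move slides a token along one of his edges onto an empty vertex -/
def Move (L R : List (ℕ × ℕ)) (p q : Finset ℕ × Bool) : Prop :=
  ∃ e ∈ if p.2 then L else R, e.1 ∈ p.1 ∧ e.2 ∉ p.1 ∧ q = (insert e.2 (p.1.erase e.1), !p.2)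

theorem result : (EXPComplete fun a : Pos => Win (Move a.1 a.2.1) (a.2.2.1.toFinset, a.2.2.2)) ∧
    EXPComplete fun a : Pos => Lose (Move a.1 a.2.1) (a.2.2.1.toFinset, a.2.2.2) :=
  ⟨⟨mem.1, ga_hard'.red ⟨_, (red_pt 5 true).comp PT.id.val, fun a =>
      (main a.2.2).1.trans (eb_map nameOf_injective ..).1.symm⟩⟩,
    mem.2, ga_hard'.red ⟨_, (red_pt 11 false).comp PT.id.val, fun a =>
      (main a.2.2).2.trans (eb_map nameOf_injective ..).2.symm⟩⟩

end Pool.Agent.Results.MP_817c3f_lc.Full
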